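import Mathlib
import Pool.Agent.Helper35.PI.St2

/-!
Module I1 of project PI (MP_b2fa09_gt): invariance of `mcv`, `nsq`, `zsq` under
reparametrisation.
-/

namespace Helper67.PI

open Helper35.PI
open scoped ContDiff Manifold Topology ENNReal BigOperators Matrix Kronecker
open MeasureTheory Set Filter

/-- change of variables in a double contraction -/
theorem contr {ι V : Type} [Fintype ι] [AddCommGroup V] [Module ℝ V]
    (B J : Matrix ι ι ℝ) (S : ι → ι → V) :
    ∑ p, ∑ q, B p q • ∑ r, ∑ s, (J p r * J q s) • S r s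
      = ∑ r, ∑ s, (J.transpose * B * J) r s • S r s := by
  have h1 : ∀ r s, (J.transpose * B * J) r s • S r s
      = ∑ q, ∑ p, (B p q * (J p r * J q s)) • S r s := by
    intro r s
    rw [Matrix.mul_apply, Finset.sum_smul]
    refine Finset.sum_congr rfl fun q _ => ?_
    rw [Matrix.mul_apply, Finset.sum_mul, Finset.sum_smul]
    refine Finset.sum_congr rfl fun p _ => ?_
    rw [Matrix.transpose_apply]
    congr 1
    ring
  simp_rw [h1, Finset.smul_sum, smul_smul]
  calc ∑ p, ∑ q, ∑ r, ∑ s, (B p q * (J p r * J q s)) • S r s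
      = ∑ pq : ι × ι, ∑ rs : ι × ι,
          (B pq.1 pq.2 * (J pq.1 rs.1 * J pq.2 rs.2)) • S rs.1 rs.2 := by
        simp only [Fintype.sum_prod_type]
    _ = ∑ rs : ι × ι, ∑ pq : ι × ι,
          (B pq.1 pq.2 * (J pq.1 rs.1 * J pq.2 rs.2)) • S rs.1 rs.2 := Finset.sum_comm
    _ = ∑ r, ∑ s, ∑ p, ∑ q, (B p q * (J p r * J q s)) • S r s := by
        simp only [Fintype.sum_prod_type]
    _ = _ := by
        refine Finset.sum_congr rfl fun r _ => Finset.sum_congr rfl fun s _ => ?_
        exact Finset.sum_comm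

/-- the quadruple contraction in vectors -/
theorem contr4 {n : ℕ} {V : Type} [NormedAddCommGroup V] [InnerProductSpace ℝ V]
    (A' A J : Matrix (Fin n) (Fin n) ℝ) (hA : J.transpose * A' * J = A)
    (X Y : Fin n → Fin n → V)
    (hX : ∀ i j, X i j = ∑ a, ∑ b, (J i a * J j b) • Y a b) :
    ∑ i, ∑ j, ∑ k, ∑ l, A' i k * A' j l * inner ℝ (X i j) (X k l)
      = ∑ i, ∑ j, ∑ k, ∑ l, A i k * A j l * inner ℝ (Y i j) (Y k l) := by
  have hk : (J ⊗ₖ J).transpose * (A' ⊗ₖ A') * (J ⊗ₖ J) = A ⊗ₖ A := by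
    rw [← Matrix.kroneckerMap_transpose, ← Matrix.mul_kronecker_mul, ← Matrix.mul_kronecker_mul,
      hA]
  have hXp : ∀ p : Fin n × Fin n, X p.1 p.2 = ∑ r : Fin n × Fin n,
      (J ⊗ₖ J) p r • Y r.1 r.2 := by
    intro p
    rw [hX, Fintype.sum_prod_type]
    rfl
  have hin : ∀ p q : Fin n × Fin n, (inner ℝ (X p.1 p.2) (X q.1 q.2) : ℝ)
      = ∑ r : Fin n × Fin n, ∑ s : Fin n × Fin n, ((J ⊗ₖ J) p r * (J ⊗ₖ J) q s) •
          (inner ℝ (Y r.1 r.2) (Y s.1 s.2) : ℝ) := by
    intro p q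
    rw [hXp p, hXp q, sum_inner]
    refine Finset.sum_congr rfl fun r _ => ?_
    rw [inner_sum]
    refine Finset.sum_congr rfl fun s _ => ?_
    rw [inner_smul_left, inner_smul_right, smul_eq_mul]
    simp only [conj_trivial]
    ring
  have hL : ∑ i, ∑ j, ∑ k, ∑ l, A' i k * A' j l * inner ℝ (X i j) (X k l)
      = ∑ p : Fin n × Fin n, ∑ q : Fin n × Fin n, (A' ⊗ₖ A') p q •
          (inner ℝ (X p.1 p.2) (X q.1 q.2) : ℝ) := by
    simp only [Fintype.sum_prod_type]
    rfl
  have hR : ∑ i, ∑ j, ∑ k, ∑ l, A i k * A j l * inner ℝ (Y i j) (Y k l)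
      = ∑ p : Fin n × Fin n, ∑ q : Fin n × Fin n, (A ⊗ₖ A) p q •
          (inner ℝ (Y p.1 p.2) (Y q.1 q.2) : ℝ) := by
    simp only [Fintype.sum_prod_type]
    rfl
  rw [hL, hR]
  simp_rw [hin]
  rw [contr (A' ⊗ₖ A') (J ⊗ₖ J) (fun r s => (inner ℝ (Y r.1 r.2) (Y s.1 s.2) : ℝ)), hk]

/-- expansion in coordinates -/
theorem expand {n : ℕ} (v : EE n) : v = ∑ a, v a • (ee a : EE n) := by
  ext j
  simp [ee, Pi.single_apply]

variable {n N : ℕ}

/-- a vector in the range of the derivative is in the span of the coordinate derivatives -/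
theorem fderiv_expand (f : EE n → EE N) (x v : EE n) :
    fderiv ℝ f x v = ∑ a, v a • dv1 f x a := by
  conv_lhs => rw [expand v]
  rw [map_sum]
  refine Finset.sum_congr rfl fun a _ => ?_
  rw [map_smul]
  rfl

theorem fderiv_mem (f : EE n → EE N) (x v : EE n) :
    fderiv ℝ f x v ∈ Submodule.span ℝ (range fun i => dv1 f x i) := by
  rw [fderiv_expand]
  exact Submodule.sum_mem _ fun a _ =>
    Submodule.smul_mem _ _ (Submodule.subset_span ⟨a, rfl⟩)

/-- first derivatives of a composition -/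
theorem first (f h : EE n → EE N) (φ : EE n → EE n) (x : EE n)
    (hf : ContDiffAt ℝ 2 f (φ x)) (hφ : ContDiffAt ℝ 2 φ x)
    (hh : h =ᶠ[𝓝 x] (fun y => f (φ y))) (i : Fin n) :
    dv1 h x i = fderiv ℝ f (φ x) (fderiv ℝ φ x (ee i)) := by
  unfold dv1
  rw [hh.fderiv_eq]
  rw [fderiv_fun_comp x (hf.differentiableAt (by norm_num)) (hφ.differentiableAt (by norm_num))]
  rfl

/-- second derivatives of a composition -/
theorem second (f h : EE n → EE N) (φ : EE n → EE n) (x : EE n)
    (hf : ContDiffAt ℝ 2 f (φ x)) (hφ : ContDiffAt ℝ 2 φ x)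
    (hh : h =ᶠ[𝓝 x] (fun y => f (φ y))) (i j : Fin n) :
    dv2 h x i j = fderiv ℝ (fderiv ℝ f) (φ x) (fderiv ℝ φ x (ee i)) (fderiv ℝ φ x (ee j))
      + fderiv ℝ f (φ x) (dv2 φ x i j) := by
  have hd1 : DifferentiableAt ℝ (fderiv ℝ f) (φ x) :=
    (hf.fderiv_right (m := 1) (by norm_num)).differentiableAt (by norm_num)
  have hd2 : DifferentiableAt ℝ (fderiv ℝ φ) x :=
    (hφ.fderiv_right (m := 1) (by norm_num)).differentiableAt (by norm_num)
  have hd0 : DifferentiableAt ℝ φ x := hφ.differentiableAt (by norm_num)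
  have hev : (fun y => fderiv ℝ h y (ee j))
      =ᶠ[𝓝 x] (fun y => fderiv ℝ f (φ y) (fderiv ℝ φ y (ee j))) := by
    have e1 : ∀ᶠ y in 𝓝 x, h =ᶠ[𝓝 y] (fun y => f (φ y)) := hh.eventuallyEq_nhds
    have e2 : ∀ᶠ y in 𝓝 x, ContDiffAt ℝ 2 f (φ y) :=
      hφ.continuousAt.eventually (hf.eventually (by decide))
    have e3 : ∀ᶠ y in 𝓝 x, ContDiffAt ℝ 2 φ y := hφ.eventually (by decide)
    filter_upwards [e1, e2, e3] with y h1 h2 h3
    exact first f h φ y h2 h3 h1 j
  have hc : HasFDerivAt (fun y => fderiv ℝ f (φ y))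
      ((fderiv ℝ (fderiv ℝ f) (φ x)).comp (fderiv ℝ φ x)) x :=
    hd1.hasFDerivAt.comp x hd0.hasFDerivAt
  have hu : HasFDerivAt (fun y => fderiv ℝ φ y (ee j))
      (fderiv ℝ (fun y => fderiv ℝ φ y (ee j)) x) x :=
    (hd2.clm_apply (differentiableAt_const (ee j))).hasFDerivAt
  have hfin := hc.clm_apply hu
  unfold dv2
  rw [hev.fderiv_eq, hfin.fderiv]
  simp only [add_apply, ContinuousLinearMap.comp_apply,
    ContinuousLinearMap.flip_apply]
  rw [add_comm]

/-- the second derivative as a bilinear map -/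
theorem second_expand (f : EE n → EE N) (y : EE n) (hf : ContDiffAt ℝ 2 f y) (u v : EE n) :
    fderiv ℝ (fderiv ℝ f) y u v = ∑ a, ∑ b, (u a * v b) • dv2 f y a b := by
  have hd1 : DifferentiableAt ℝ (fderiv ℝ f) y :=
    (hf.fderiv_right (m := 1) (by norm_num)).differentiableAt (by norm_num)
  have h2 : ∀ a b : Fin n, dv2 f y a b = fderiv ℝ (fderiv ℝ f) y (ee a) (ee b) := by
    intro a b
    unfold dv2
    have := hd1.hasFDerivAt.clm_apply (hasFDerivAt_const (ee b : EE n) y)
    rw [this.fderiv]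
    simp
  conv_lhs => rw [expand u, expand v]
  simp only [map_sum, map_smul, sum_apply, smul_apply,
    Finset.smul_sum, smul_smul, h2]
  rw [Finset.sum_comm]
  refine Finset.sum_congr rfl fun a _ => Finset.sum_congr rfl fun b _ => ?_
  congr 1
  ring

/-- rank argument: spans, independence, invertibility of the Jacobian matrix -/
theorem spans (f h : EE n → EE N) (x y : EE n) (J : Matrix (Fin n) (Fin n) ℝ)
    (hJ : ∀ i, dv1 h x i = ∑ a, J i a • dv1 f y a) (hLI : LI h x) :
    LI f y ∧ Submodule.span ℝ (range fun i => dv1 h x i)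
      = Submodule.span ℝ (range fun i => dv1 f y i) ∧ IsUnit J.det := by
  have hle : Submodule.span ℝ (range fun i => dv1 h x i)
      ≤ Submodule.span ℝ (range fun i => dv1 f y i) := by
    rw [Submodule.span_le]
    rintro _ ⟨i, rfl⟩
    simp only [hJ]
    exact Submodule.sum_mem _ fun a _ =>
      Submodule.smul_mem _ _ (Submodule.subset_span ⟨a, rfl⟩)
  have hfr : Module.finrank ℝ (Submodule.span ℝ (range fun i => dv1 h x i)) = n := by
    have := finrank_span_eq_card hLI
    simpa using this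
  have hfr2 : Module.finrank ℝ (Submodule.span ℝ (range fun i => dv1 f y i)) ≤ n := by
    have := finrank_range_le_card (R := ℝ) (fun i => dv1 f y i)
    simpa [Set.finrank] using this
  have heq := Submodule.eq_of_le_of_finrank_le hle (by omega)
  have hLIf : LI f y := by
    unfold LI
    rw [linearIndependent_iff_card_eq_finrank_span]
    simp only [Set.finrank, Fintype.card_fin]
    rw [← heq, hfr]
  have hdet : IsUnit J.det := by
    rw [isUnit_iff_ne_zero]
    intro h0
    obtain ⟨c, hc0, hc⟩ := Matrix.exists_vecMul_eq_zero_iff.mpr h0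
    apply hc0
    have hsum : ∑ i, c i • dv1 h x i = 0 := by
      simp_rw [hJ, Finset.smul_sum, smul_smul]
      rw [Finset.sum_comm]
      apply Finset.sum_eq_zero
      intro a _
      rw [← Finset.sum_smul]
      have h1 : ∑ i, c i * J i a = 0 := congrFun hc a
      rw [h1, zero_smul]
    exact funext (Fintype.linearIndependent_iff.mp hLI c hsum)
  exact ⟨hLIf, heq, hdet⟩

/-- the normal projection depends only on the span -/
theorem nrm_eq (hNR : StNR) (f h : EE n → EE N) (x y : EE n) (hf : LI f y) (hh : LI h x)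
    (hs : Submodule.span ℝ (range fun i => dv1 h x i)
      = Submodule.span ℝ (range fun i => dv1 f y i)) (v : EE N) :
    nrm h x v = nrm f y v := by
  obtain ⟨-, f2, -, f4, f5, -, -, -⟩ := hNR n N f y hf
  obtain ⟨h1, -, h3, -, -, -, -, -⟩ := hNR n N h x hh
  have hperp : ∀ w ∈ Submodule.span ℝ (range fun i => dv1 f y i),
      (inner ℝ (nrm h x v) w : ℝ) = 0 := by
    intro w hw
    rw [← hs] at hw
    induction hw using Submodule.span_induction with
    | mem w hw =>
      obtain ⟨i, rfl⟩ := hw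
      exact h1 v i
    | zero => simp
    | add a b _ _ ha hb => rw [inner_add_right, ha, hb, add_zero]
    | smul c a _ ha => rw [inner_smul_right, ha, mul_zero]
  have e1 : nrm f y (nrm h x v) = nrm h x v :=
    f4 _ (fun i => hperp _ (Submodule.subset_span ⟨i, rfl⟩))
  have e2 : nrm f y (v - nrm h x v) = 0 := f2 _ (hs ▸ h3 v)
  have e3 : nrm h x v + (v - nrm h x v) = v := by abel
  have e4 := f5 (nrm h x v) (v - nrm h x v)
  rw [e3, e1, e2, add_zero] at e4
  exact e4.symm

/-- the metric transforms as a bilinear form -/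
theorem gram_eq (f h : EE n → EE N) (x y : EE n) (J : Matrix (Fin n) (Fin n) ℝ)
    (hJ : ∀ i, dv1 h x i = ∑ a, J i a • dv1 f y a) :
    gram h x = J * gram f y * J.transpose := by
  ext i j
  rw [Matrix.mul_apply]
  show (inner ℝ (dv1 h x i) (dv1 h x j) : ℝ) = _
  rw [hJ i, hJ j, inner_sum]
  refine Finset.sum_congr rfl fun b _ => ?_
  rw [sum_inner, Matrix.mul_apply, Finset.sum_mul]
  refine Finset.sum_congr rfl fun a _ => ?_
  rw [inner_smul_left, inner_smul_right, Matrix.transpose_apply]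
  simp only [conj_trivial]
  show J i a * (J j b * inner ℝ (dv1 f y a) (dv1 f y b))
    = J i a * inner ℝ (dv1 f y a) (dv1 f y b) * J j b
  ring

theorem gram_inv (f h : EE n → EE N) (x y : EE n) (J : Matrix (Fin n) (Fin n) ℝ)
    (hJ : ∀ i, dv1 h x i = ∑ a, J i a • dv1 f y a) (hdet : IsUnit J.det) :
    J.transpose * (gram h x)⁻¹ * J = (gram f y)⁻¹ := by
  have hdt : IsUnit J.transpose.det := by rwa [Matrix.det_transpose]
  have h1 : J.transpose * (J.transpose)⁻¹ = 1 := Matrix.mul_nonsing_inv _ hdt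
  have h2 : J⁻¹ * J = 1 := Matrix.nonsing_inv_mul _ hdet
  rw [gram_eq f h x y J hJ, Matrix.mul_inv_rev, Matrix.mul_inv_rev]
  calc J.transpose * ((J.transpose)⁻¹ * ((gram f y)⁻¹ * J⁻¹)) * J
      = (J.transpose * (J.transpose)⁻¹) * (gram f y)⁻¹ * (J⁻¹ * J) := by
        simp only [Matrix.mul_assoc]
    _ = (gram f y)⁻¹ := by rw [h1, h2, Matrix.one_mul, Matrix.mul_one]

/-- I1. invariance under reparametrisation -/
theorem hI1 (_hFR : StFR) (hNR : StNR) : StI1 := by
  intro n N f h φ x hf hφ hh hLI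
  set y := φ x with hy
  set J : Matrix (Fin n) (Fin n) ℝ := Matrix.of fun i a => (fderiv ℝ φ x (ee i)) a with hJdef
  have hJ : ∀ i, dv1 h x i = ∑ a, J i a • dv1 f y a := by
    intro i
    rw [first f h φ x hf hφ hh i, fderiv_expand]
    rfl
  obtain ⟨hLIf, hspan, hdet⟩ := spans f h x y J hJ hLI
  have hnrm := nrm_eq hNR f h x y hLIf hLI hspan
  have hinv := gram_inv f h x y J hJ hdet
  obtain ⟨-, f2, -, -, f5, f6, -, -⟩ := hNR n N f y hLIf
  have hsff : ∀ i j, sff h x i j = ∑ a, ∑ b, (J i a * J j b) • sff f y a b := by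
    intro i j
    let T : EE N →ₗ[ℝ] EE N :=
      { toFun := nrm f y, map_add' := f5, map_smul' := f6 }
    have hT : ∀ v, T v = nrm f y v := fun v => rfl
    unfold sff
    rw [hnrm, second f h φ x hf hφ hh i j, f5, f2 _ (fderiv_mem f y _), add_zero,
      second_expand f y hf, ← hT, map_sum]
    refine Finset.sum_congr rfl fun a _ => ?_
    rw [map_sum]
    refine Finset.sum_congr rfl fun b _ => ?_
    rw [map_smul]
    rfl
  have hmcv : mcv h x = mcv f y := by
    unfold mcv
    simp_rw [hsff]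
    rw [contr, hinv]
  have hnsq : nsq h x = nsq f y := by
    unfold nsq
    exact contr4 _ _ J hinv _ _ hsff
  have hzsq : zsq h x = zsq f y := by
    unfold zsq
    rw [hmcv]
    have hX : ∀ i j, (inner ℝ (sff h x i j) (mcv f y) : ℝ)
        = ∑ a, ∑ b, (J i a * J j b) • (inner ℝ (sff f y a b) (mcv f y) : ℝ) := by
      intro i j
      rw [hsff, sum_inner]
      refine Finset.sum_congr rfl fun a _ => ?_
      rw [sum_inner]
      refine Finset.sum_congr rfl fun b _ => ?_
      rw [inner_smul_left, smul_eq_mul]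
      simp only [conj_trivial]
    have := contr4 (V := ℝ) _ _ J hinv (fun i j => (inner ℝ (sff h x i j) (mcv f y) : ℝ))
      (fun i j => (inner ℝ (sff f y i j) (mcv f y) : ℝ)) hX
    have hin : ∀ a b : ℝ, (inner ℝ a b : ℝ) = a * b := by
      intro a b
      simp [mul_comm]
    simpa only [hin] using this
  exact ⟨hLIf, hmcv, hnsq, hzsq, hspan⟩

end Helper67.PI
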