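import Pool.Agent.Helper35.PI.St1

/-! Project PI, module LL2: the key commutator lemma. -/

namespace Helper67.PI

open Helper35.PI
open scoped BigOperators Matrix

variable {n : ℕ}

private lemma ipm_eq (X Y : Matrix (Fin n) (Fin n) ℝ) : ipm X Y = (Xᵀ * Y).trace := by
  simp only [ipm, Matrix.trace, Matrix.diag_apply, Matrix.mul_apply, Matrix.transpose_apply]
  rw [Finset.sum_comm]

private lemma fq_eq (X : Matrix (Fin n) (Fin n) ℝ) : fq X = ipm X X := by
  simp only [fq, ipm, pow_two]

private lemma cmq_eq (X Y : Matrix (Fin n) (Fin n) ℝ) : cmq X Y = fq (X * Y - Y * X) := rfl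

private lemma ipm_conj (U : Matrix (Fin n) (Fin n) ℝ) (hU : U * Uᵀ = 1) (X Y : Matrix (Fin n) (Fin n) ℝ) :
    ipm (Uᵀ * X * U) (Uᵀ * Y * U) = ipm X Y := by
  rw [ipm_eq, ipm_eq]
  have h : (Uᵀ * X * U)ᵀ * (Uᵀ * Y * U) = Uᵀ * (Xᵀ * Y * U) := by
    calc (Uᵀ * X * U)ᵀ * (Uᵀ * Y * U) = Uᵀ * (Xᵀ * (U * Uᵀ) * Y * U) := by
          simp only [Matrix.transpose_mul, Matrix.transpose_transpose, Matrix.mul_assoc]
      _ = Uᵀ * (Xᵀ * Y * U) := by rw [hU, Matrix.mul_one]
  rw [h, Matrix.trace_mul_comm, Matrix.mul_assoc, hU, Matrix.mul_one]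

private lemma fq_conj (U : Matrix (Fin n) (Fin n) ℝ) (hU : U * Uᵀ = 1) (X : Matrix (Fin n) (Fin n) ℝ) :
    fq (Uᵀ * X * U) = fq X := by
  rw [fq_eq, fq_eq, ipm_conj U hU]

private lemma cmq_conj (U : Matrix (Fin n) (Fin n) ℝ) (hU : U * Uᵀ = 1) (X Y : Matrix (Fin n) (Fin n) ℝ) :
    cmq (Uᵀ * X * U) (Uᵀ * Y * U) = cmq X Y := by
  rw [cmq_eq, cmq_eq, ← fq_conj U hU (X * Y - Y * X)]
  congr 1
  have h : ∀ A B : Matrix (Fin n) (Fin n) ℝ, (Uᵀ * A * U) * (Uᵀ * B * U) = Uᵀ * (A * B) * U := by
    intro A B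
    calc (Uᵀ * A * U) * (Uᵀ * B * U) = Uᵀ * A * (U * Uᵀ) * B * U := by simp only [Matrix.mul_assoc]
      _ = Uᵀ * (A * B) * U := by rw [hU, Matrix.mul_one]; simp only [Matrix.mul_assoc]
  rw [h, h, Matrix.mul_sub, Matrix.sub_mul]

/-- Bessel's inequality against `e_ij + e_ji` -/
private lemma bessel {p : ℕ} (C : Fin p → Matrix (Fin n) (Fin n) ℝ) (hs : ∀ b, (C b).IsSymm)
    (ho : ∀ a b, a ≠ b → ipm (C a) (C b) = 0) (μ : ℝ) (hμ0 : 0 ≤ μ) (hμ : ∀ b, fq (C b) ≤ μ)
    (i j : Fin n) (hij : i ≠ j) : 2 * ∑ b, C b i j ^ 2 ≤ μ := by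
  set W := ∑ b, C b i j ^ 2 with hW
  have hW0 : 0 ≤ W := Finset.sum_nonneg fun b _ => sq_nonneg _
  -- the combination `M = ∑ a_b C_b`
  let M : Matrix (Fin n) (Fin n) ℝ := fun k l => ∑ b, C b i j * C b k l
  have hMij : M i j = W := by
    show ∑ b, C b i j * C b i j = W
    rw [hW]
    exact Finset.sum_congr rfl fun b _ => (pow_two _).symm
  have hMji : M j i = W := by
    show ∑ b, C b i j * C b j i = W
    rw [hW]
    refine Finset.sum_congr rfl fun b _ => ?_
    rw [(hs b).apply i j, pow_two]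
  have hM1 : fq M = ∑ b, C b i j ^ 2 * fq (C b) := by
    have h1 : fq M = ∑ k, ∑ l, ∑ a, ∑ b, (C a i j * C b i j) * (C a k l * C b k l) := by
      unfold fq
      refine Finset.sum_congr rfl fun k _ => Finset.sum_congr rfl fun l _ => ?_
      show (∑ b, C b i j * C b k l) ^ 2 = _
      rw [pow_two, Finset.sum_mul_sum]
      exact Finset.sum_congr rfl fun a _ => Finset.sum_congr rfl fun b _ => by ring
    have h2 : ∑ k, ∑ l, ∑ a, ∑ b, (C a i j * C b i j) * (C a k l * C b k l) =
        ∑ a, ∑ b, (C a i j * C b i j) * ipm (C a) (C b) := by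
      calc ∑ k, ∑ l, ∑ a, ∑ b, (C a i j * C b i j) * (C a k l * C b k l)
          = ∑ k, ∑ a, ∑ l, ∑ b, (C a i j * C b i j) * (C a k l * C b k l) :=
            Finset.sum_congr rfl fun k _ => Finset.sum_comm
        _ = ∑ a, ∑ k, ∑ l, ∑ b, (C a i j * C b i j) * (C a k l * C b k l) := Finset.sum_comm
        _ = ∑ a, ∑ k, ∑ b, ∑ l, (C a i j * C b i j) * (C a k l * C b k l) :=
            Finset.sum_congr rfl fun a _ => Finset.sum_congr rfl fun k _ => Finset.sum_comm
        _ = ∑ a, ∑ b, ∑ k, ∑ l, (C a i j * C b i j) * (C a k l * C b k l) :=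
            Finset.sum_congr rfl fun a _ => Finset.sum_comm
        _ = _ := by
            refine Finset.sum_congr rfl fun a _ => Finset.sum_congr rfl fun b _ => ?_
            simp only [ipm, Finset.mul_sum]
    rw [h1, h2]
    refine Finset.sum_congr rfl fun a _ => ?_
    rw [Finset.sum_eq_single a]
    · rw [fq_eq, pow_two]
    · intro b _ hb
      rw [ho a b (Ne.symm hb), mul_zero]
    · intro h
      exact absurd (Finset.mem_univ a) h
  have hM2 : fq M ≤ μ * W := by
    rw [hM1, hW, Finset.mul_sum]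
    refine Finset.sum_le_sum fun b _ => ?_
    rw [mul_comm μ]
    exact mul_le_mul_of_nonneg_left (hμ b) (sq_nonneg _)
  have hM3 : 2 * W ^ 2 ≤ fq M := by
    have h1 : M i j ^ 2 + M j i ^ 2 ≤ fq M := by
      have e : fq M = ∑ q : Fin n × Fin n, M q.1 q.2 ^ 2 := by
        unfold fq
        rw [← Finset.univ_product_univ, Finset.sum_product]
      rw [e]
      have hne : ((i, j) : Fin n × Fin n) ≠ (j, i) := fun h => hij (congrArg Prod.fst h)
      have := Finset.sum_le_sum_of_subset_of_nonneg (f := fun q : Fin n × Fin n => M q.1 q.2 ^ 2)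
        (Finset.subset_univ ({(i, j), (j, i)} : Finset (Fin n × Fin n))) (fun q _ _ => sq_nonneg _)
      rw [Finset.sum_pair hne] at this
      exact this
    rw [hMij, hMji] at h1
    linarith
  rcases hW0.eq_or_lt with h | h
  · rw [← h]; linarith
  · have h5 : W * (2 * W) ≤ W * μ := by nlinarith
    exact le_of_mul_le_mul_left h5 h

/-- the diagonal case -/
private lemma diag_case (h1 : StLL1) {p : ℕ} (x : Fin n → ℝ) (C : Fin p → Matrix (Fin n) (Fin n) ℝ)
    (hs : ∀ b, (C b).IsSymm) (ho : ∀ a b, a ≠ b → ipm (C a) (C b) = 0) (μ : ℝ) (hμ0 : 0 ≤ μ)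
    (hμ : ∀ b, fq (C b) ≤ μ) :
    ∑ b, cmq (Matrix.diagonal x) (C b) ≤ fq (Matrix.diagonal x) * (∑ b, fq (C b) + μ) := by
  classical
  have hcm : ∀ b, cmq (Matrix.diagonal x) (C b) = ∑ i, ∑ j, (x i - x j) ^ 2 * C b i j ^ 2 := by
    intro b
    unfold cmq
    refine Finset.sum_congr rfl fun i _ => Finset.sum_congr rfl fun j _ => ?_
    rw [Matrix.sub_apply, Matrix.diagonal_mul, Matrix.mul_diagonal]
    ring
  have hfq : fq (Matrix.diagonal x) = ∑ i, x i ^ 2 := by
    unfold fq
    refine Finset.sum_congr rfl fun i _ => ?_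
    rw [Finset.sum_eq_single i]
    · rw [Matrix.diagonal_apply_eq]
    · intro j _ hj
      rw [Matrix.diagonal_apply_ne _ (Ne.symm hj)]
      norm_num
    · intro h; exact absurd (Finset.mem_univ i) h
  set F := ∑ i, x i ^ 2 with hF
  have hF0 : 0 ≤ F := Finset.sum_nonneg fun i _ => sq_nonneg _
  rw [hfq]
  rcases hF0.eq_or_lt with hz | hpos
  · -- `x = 0`
    have hx : ∀ i, x i = 0 := by
      intro i
      have h := (Finset.sum_eq_zero_iff_of_nonneg (fun i _ => sq_nonneg (x i))).1 hz.symm i (Finset.mem_univ i)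
      exact pow_eq_zero_iff (two_ne_zero) |>.1 h
    have : ∑ b, cmq (Matrix.diagonal x) (C b) = 0 := by
      refine Finset.sum_eq_zero fun b _ => ?_
      rw [hcm]
      refine Finset.sum_eq_zero fun i _ => Finset.sum_eq_zero fun j _ => ?_
      rw [hx i, hx j]; ring
    rw [this, ← hz, zero_mul]
  · set η : Fin n → ℝ := fun i => x i / √F with hη
    have hsF : √F ^ 2 = F := Real.sq_sqrt hF0
    have hη1 : ∑ i, η i ^ 2 ≤ 1 := by
      have : ∑ i, η i ^ 2 = 1 := by
        simp only [hη, div_pow, hsF]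
        rw [← Finset.sum_div, ← hF, div_self hpos.ne']
      exact this.le
    have hxe : ∀ i j, (x i - x j) ^ 2 = F * (η i - η j) ^ 2 := by
      intro i j
      have hne : √F ≠ 0 := (Real.sqrt_pos.2 hpos).ne'
      simp only [hη]
      rw [← sub_div, div_pow, hsF]
      field_simp
    -- the excess
    let e : Fin n → Fin n → ℝ := fun i j => if 1 < (η i - η j) ^ 2 then (η i - η j) ^ 2 - 1 else 0
    let w : Fin n → Fin n → ℝ := fun i j => ∑ b, C b i j ^ 2
    have he0 : ∀ i j, 0 ≤ e i j := by
      intro i j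
      simp only [e]
      split_ifs with h
      · linarith
      · exact le_rfl
    have hes : ∀ i j, e i j = e j i := by
      intro i j
      have : (η i - η j) ^ 2 = (η j - η i) ^ 2 := by ring
      simp only [e, this]
    have hws : ∀ i j, w i j = w j i := by
      intro i j
      exact Finset.sum_congr rfl fun b _ => by rw [(hs b).apply j i]
    have hele : ∀ i j, (η i - η j) ^ 2 ≤ 1 + e i j := by
      intro i j
      simp only [e]
      split_ifs with h
      · linarith
      · linarith [not_lt.1 h]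
    have hb : ∀ i j, i ≠ j → 2 * w i j ≤ μ := fun i j hij => bessel C hs ho μ hμ0 hμ i j hij
    have hee : ∀ i, e i i = 0 := by
      intro i
      simp only [e, sub_self]
      norm_num
    -- the sum over ordered pairs is twice the sum over `i < j`
    have hsplit : ∑ i, ∑ j, e i j * w i j = 2 * ∑ i, ∑ j, (if i < j then e i j * w i j else 0) := by
      have h3 : ∀ i j, e i j * w i j = (if i < j then e i j * w i j else 0) + (if j < i then e j i * w j i else 0) := by
        intro i j
        rcases lt_trichotomy i j with h | h | h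
        · rw [if_pos h, if_neg (not_lt.2 h.le), add_zero]
        · subst h
          rw [hee, zero_mul, if_neg (lt_irrefl _), add_zero]
        · rw [if_neg (not_lt.2 h.le), if_pos h, zero_add, hes, hws]
      calc ∑ i, ∑ j, e i j * w i j = ∑ i, ∑ j, ((if i < j then e i j * w i j else 0) +
            (if j < i then e j i * w j i else 0)) :=
            Finset.sum_congr rfl fun i _ => Finset.sum_congr rfl fun j _ => h3 i j
        _ = ∑ i, ∑ j, (if i < j then e i j * w i j else 0) + ∑ i, ∑ j, (if j < i then e j i * w j i else 0) := by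
            simp only [Finset.sum_add_distrib]
        _ = _ := by
            rw [Finset.sum_comm (f := fun i j => if j < i then e j i * w j i else 0)]
            ring
    have hexc : ∑ i, ∑ j, e i j * w i j ≤ μ := by
      rw [hsplit]
      have h4 : 2 * ∑ i, ∑ j, (if i < j then e i j * w i j else 0) ≤
          μ * ∑ i, ∑ j, (if i < j ∧ 1 < (η i - η j) ^ 2 then (η i - η j) ^ 2 - 1 else 0) := by
        rw [Finset.mul_sum, Finset.mul_sum]
        refine Finset.sum_le_sum fun i _ => ?_
        rw [Finset.mul_sum, Finset.mul_sum]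
        refine Finset.sum_le_sum fun j _ => ?_
        by_cases hij : i < j
        · have h5 := hb i j hij.ne
          have h6 := he0 i j
          by_cases h7 : 1 < (η i - η j) ^ 2
          · rw [if_pos hij, if_pos ⟨hij, h7⟩]
            have h8 : e i j = (η i - η j) ^ 2 - 1 := if_pos h7
            rw [h8] at h6 ⊢
            nlinarith
          · rw [if_pos hij, if_neg (fun h => h7 h.2)]
            have h8 : e i j = 0 := if_neg h7
            rw [h8]; simp
        · rw [if_neg hij, if_neg (fun h => hij h.1)]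
          simp
      have h9 := h1 n η hη1
      calc _ ≤ _ := h4
        _ ≤ μ * 1 := mul_le_mul_of_nonneg_left h9 hμ0
        _ = μ := mul_one μ
    have hswap : ∀ g : Fin n → Fin n → ℝ, ∑ b, ∑ i, ∑ j, g i j * C b i j ^ 2 = ∑ i, ∑ j, g i j * w i j := by
      intro g
      rw [Finset.sum_comm]
      refine Finset.sum_congr rfl fun i _ => ?_
      rw [Finset.sum_comm]
      refine Finset.sum_congr rfl fun j _ => ?_
      simp only [w, Finset.mul_sum]
    have hfqs : ∑ b, fq (C b) = ∑ i, ∑ j, w i j := by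
      have h := hswap fun _ _ => 1
      simp only [one_mul] at h
      exact h
    calc ∑ b, cmq (Matrix.diagonal x) (C b) = ∑ b, ∑ i, ∑ j, (x i - x j) ^ 2 * C b i j ^ 2 :=
          Finset.sum_congr rfl fun b _ => hcm b
      _ = ∑ i, ∑ j, (x i - x j) ^ 2 * w i j := hswap fun i j => (x i - x j) ^ 2
      _ = F * ∑ i, ∑ j, (η i - η j) ^ 2 * w i j := by
          rw [Finset.mul_sum]
          refine Finset.sum_congr rfl fun i _ => ?_
          rw [Finset.mul_sum]
          refine Finset.sum_congr rfl fun j _ => ?_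
          rw [hxe]; ring
      _ ≤ F * (∑ b, fq (C b) + μ) := by
          refine mul_le_mul_of_nonneg_left ?_ hF0
          calc ∑ i, ∑ j, (η i - η j) ^ 2 * w i j ≤ ∑ i, ∑ j, (w i j + e i j * w i j) := by
                refine Finset.sum_le_sum fun i _ => Finset.sum_le_sum fun j _ => ?_
                have hw0 : 0 ≤ w i j := Finset.sum_nonneg fun b _ => sq_nonneg _
                nlinarith [hele i j]
            _ = ∑ i, ∑ j, w i j + ∑ i, ∑ j, e i j * w i j := by simp only [Finset.sum_add_distrib]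
            _ ≤ ∑ b, fq (C b) + μ := by rw [hfqs]; linarith

theorem hLL2 (h1 : StLL1) : StLL2 := by
  intro n p X hX C hs ho μ hμ0 hμ
  have hH : X.IsHermitian := by
    rw [Matrix.IsHermitian, Matrix.conjTranspose_eq_transpose_of_trivial]
    exact hX
  let U : Matrix (Fin n) (Fin n) ℝ := (hH.eigenvectorUnitary : Matrix (Fin n) (Fin n) ℝ)
  have hU : U * Uᵀ = 1 := by
    have h := Unitary.coe_mul_star_self hH.eigenvectorUnitary
    rw [Unitary.coe_star, Matrix.star_eq_conjTranspose, Matrix.conjTranspose_eq_transpose_of_trivial] at h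
    exact h
  have hD : Uᵀ * X * U = Matrix.diagonal hH.eigenvalues := by
    have h := hH.conjStarAlgAut_star_eigenvectorUnitary
    rw [Unitary.conjStarAlgAut_apply, Unitary.coe_star, star_star, Matrix.star_eq_conjTranspose,
      Matrix.conjTranspose_eq_transpose_of_trivial] at h
    exact h
  have key := diag_case h1 hH.eigenvalues (fun b => Uᵀ * C b * U)
    (by
      intro b
      show (Uᵀ * C b * U)ᵀ = Uᵀ * C b * U
      rw [Matrix.transpose_mul, Matrix.transpose_mul, Matrix.transpose_transpose, (hs b).eq, Matrix.mul_assoc])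
    (by
      intro a b hab
      rw [ipm_conj U hU]
      exact ho a b hab) μ hμ0
    (by
      intro b
      rw [fq_conj U hU]
      exact hμ b)
  rw [← hD, fq_conj U hU] at key
  simp only [cmq_conj U hU, fq_conj U hU] at key
  exact key

end Helper67.PI
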