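import Mathlib
import Pool.Agent.Helper35.PI.St4

/-!
Module V6 of project PI (MP_b2fa09_gt): first variation formula on `M_t`.
-/

namespace Helper67.PI

open Helper35.PI
open scoped ContDiff Manifold Topology ENNReal BigOperators
open MeasureTheory Set Filter

namespace V6

variable {n N : ℕ} {M : Type} [TopologicalSpace M] [ChartedSpace (EE n) M]

/-- divergence plus the mean curvature term -/
noncomputable def DD (F : M → ℝ → EE N) (t : ℝ) (Z : M → EE N) (q : M) : ℝ :=
  dvg (n := n) F Z q t + inner ℝ (HH (n := n) F q t) (Z q)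

/-- the same in the chart at `p` -/
noncomputable def EZ (F : M → ℝ → EE N) (t : ℝ) (p : M) (Z : M → EE N) (y : EE n) : ℝ :=
  (∑ i, ∑ j, (gram (loc (n := n) F p t) y)⁻¹ i j *
    inner ℝ (fderiv ℝ (fun y => Z ((chartAt (EE n) p).symm y)) y (ee i))
      (dv1 (loc (n := n) F p t) y j))
    + inner ℝ (mcv (loc (n := n) F p t) y) (Z ((chartAt (EE n) p).symm y))

variable [IsManifold (𝓡 n) ∞ M]

theorem chartF (hI2 : StI2) (F : M → ℝ → EE N) (hF : IsMCF (n := n) F) (p : M) (t : ℝ)
    (ht : t < 0) (y : EE n) (hy : y ∈ (chartAt (EE n) p).target) :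
    ContDiffAt ℝ ∞ (fun z : EE n × ℝ => F ((chartAt (EE n) p).symm z.1) z.2) (y, t) := by
  have h := hI2 n N M F hF p
  refine h.contDiffAt ?_
  exact IsOpen.mem_nhds ((chartAt (EE n) p).open_target.prod isOpen_Iio) ⟨hy, ht⟩

theorem chartL (hI3 : StI3) (F : M → ℝ → EE N) (hF : IsMCF (n := n) F) (p : M) (t : ℝ)
    (ht : t < 0) (y : EE n) (hy : y ∈ (chartAt (EE n) p).target) :
    LI (loc (n := n) F p t) y ∧
      HH (n := n) F ((chartAt (EE n) p).symm y) t = mcv (loc (n := n) F p t) y := by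
  have h := hI3 n N M F hF p ((chartAt (EE n) p).symm y) t ht
    ((chartAt (EE n) p).map_target hy)
  rw [(chartAt (EE n) p).right_inv hy] at h
  exact ⟨h.1, h.2.1⟩

theorem locC (hI2 : StI2) (F : M → ℝ → EE N) (hF : IsMCF (n := n) F) (p : M) (t : ℝ)
    (ht : t < 0) :
    ContDiffOn ℝ ∞ (loc (n := n) F p t) (chartAt (EE n) p).target := by
  have h := hI2 n N M F hF p
  have h2 : ContDiffOn ℝ ∞ (fun y : EE n => (y, t)) (chartAt (EE n) p).target := by
    fun_prop
  exact h.comp h2 (fun y hy => ⟨hy, ht⟩)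

/-- a `C¹` map read in a chart -/
theorem ZC (Z : M → EE N) (hZ : ContMDiff (𝓡 n) 𝓘(ℝ, EE N) 1 Z) (p : M) :
    ContDiffOn ℝ 1 (fun y => Z ((chartAt (EE n) p).symm y)) (chartAt (EE n) p).target := by
  have h1 : ContMDiffOn (𝓡 n) (𝓡 n) 1 (chartAt (EE n) p).symm (chartAt (EE n) p).target :=
    (contMDiffOn_chart_symm (I := 𝓡 n) (n := ∞) (x := p)).of_le (by exact_mod_cast le_top)
  have h2 := hZ.comp_contMDiffOn h1
  exact contMDiffOn_iff_contDiffOn.mp h2

theorem DD_chart (hV6a : StV6a) (hI3 : StI3) (F : M → ℝ → EE N) (hF : IsMCF (n := n) F)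
    (p : M) (t : ℝ) (ht : t < 0) (Z : M → EE N) (hZ : ContMDiff (𝓡 n) 𝓘(ℝ, EE N) 1 Z)
    (y : EE n) (hy : y ∈ (chartAt (EE n) p).target) :
    DD (n := n) F t Z ((chartAt (EE n) p).symm y) = EZ (n := n) F t p Z y := by
  have h := hV6a n N M F hF t ht Z p ((chartAt (EE n) p).symm y) (hZ _)
    ((chartAt (EE n) p).map_target hy)
  rw [(chartAt (EE n) p).right_inv hy] at h
  unfold DD EZ
  rw [h, (chartL hI3 F hF p t ht y hy).2]

theorem sgm_cont (hSM : StSM) (hI2 : StI2) (hI3 : StI3) (F : M → ℝ → EE N)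
    (hF : IsMCF (n := n) F) (p : M) (t : ℝ) (ht : t < 0) (y : EE n)
    (hy : y ∈ (chartAt (EE n) p).target) :
    ContinuousAt (fun y => sgm (loc (n := n) F p t) y) y ∧
    (∀ i j, ContinuousAt (fun y => (gram (loc (n := n) F p t) y)⁻¹ i j) y) ∧
    ContinuousAt (fun y => mcv (loc (n := n) F p t) y) y := by
  have h1 := chartF hI2 F hF p t ht y hy
  have h2 := (chartL hI3 F hF p t ht y hy).1
  obtain ⟨-, -, -, -, hg, hgi, -, hm, -, -⟩ := hSM n N _ (y, t) h1 h2
  have hc : ContinuousAt (fun y' : EE n => (y', t)) y := by fun_prop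
  refine ⟨?_, ?_, ?_⟩
  · have hgc : ∀ i j, ContinuousAt (fun y => gram (loc (n := n) F p t) y i j) y := fun i j =>
      ContinuousAt.comp (f := fun y' : EE n => (y', t)) (hg i j).continuousAt hc
    have hG : ContinuousAt (fun y => gram (loc (n := n) F p t) y) y := by
      refine continuousAt_pi.mpr fun i => continuousAt_pi.mpr fun j => hgc i j
    have hdet : Continuous (fun A : Matrix (Fin n) (Fin n) ℝ => A.det) :=
      Continuous.matrix_det continuous_id
    have := hdet.continuousAt.comp hG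
    exact Real.continuous_sqrt.continuousAt.comp this
  · intro i j
    exact ContinuousAt.comp (f := fun y' : EE n => (y', t)) (hgi i j).continuousAt hc
  · exact ContinuousAt.comp (f := fun y' : EE n => (y', t)) hm.continuousAt hc

theorem EZ_cont (hSM : StSM) (hI2 : StI2) (hI3 : StI3) (F : M → ℝ → EE N)
    (hF : IsMCF (n := n) F) (p : M) (t : ℝ) (ht : t < 0) (Z : M → EE N)
    (hZ : ContMDiff (𝓡 n) 𝓘(ℝ, EE N) 1 Z) :
    ContinuousOn (EZ (n := n) F t p Z) (chartAt (EE n) p).target := by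
  have hop := (chartAt (EE n) p).open_target
  have hZc := ZC Z hZ p
  have hf1 : ContinuousOn (fderiv ℝ (fun y => Z ((chartAt (EE n) p).symm y)))
      (chartAt (EE n) p).target := hZc.continuousOn_fderiv_of_isOpen hop le_rfl
  have hf2 : ContinuousOn (fderiv ℝ (loc (n := n) F p t)) (chartAt (EE n) p).target :=
    (locC hI2 F hF p t ht).continuousOn_fderiv_of_isOpen hop (by exact_mod_cast le_top)
  have hg : ∀ i j, ContinuousOn (fun y => (gram (loc (n := n) F p t) y)⁻¹ i j)
      (chartAt (EE n) p).target := fun i j y hy =>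
    ((sgm_cont hSM hI2 hI3 F hF p t ht y hy).2.1 i j).continuousWithinAt
  have hm : ContinuousOn (fun y => mcv (loc (n := n) F p t) y)
      (chartAt (EE n) p).target := fun y hy =>
    (sgm_cont hSM hI2 hI3 F hF p t ht y hy).2.2.continuousWithinAt
  unfold EZ
  refine ContinuousOn.add ?_ (hm.inner hZc.continuousOn)
  refine continuousOn_finsetSum _ fun i _ => continuousOn_finsetSum _ fun j _ => ?_
  refine (hg i j).mul (ContinuousOn.inner ?_ ?_)
  · exact hf1.clm_apply continuousOn_const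
  · exact hf2.clm_apply continuousOn_const

/-- integrability in a chart -/
theorem integ (hSM : StSM) (hV6a : StV6a) (hI2 : StI2) (hI3 : StI3) (F : M → ℝ → EE N)
    (hF : IsMCF (n := n) F) (p : M) (t : ℝ) (ht : t < 0) (Z : M → EE N)
    (hZ : ContMDiff (𝓡 n) 𝓘(ℝ, EE N) 1 Z) (ψ : M → ℝ) (hψ : Continuous ψ) (K : Set M)
    (hK : IsCompact K) (hKs : K ⊆ (chartAt (EE n) p).source)
    (h0 : ∀ q ∉ K, ψ q * DD (n := n) F t Z q = 0) :
    IntegrableOn (fun y => ψ ((chartAt (EE n) p).symm y)
      * DD (n := n) F t Z ((chartAt (EE n) p).symm y) * sgm (loc (n := n) F p t) y)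
      (chartAt (EE n) p).target := by
  have hK' : IsCompact ((chartAt (EE n) p) '' K) :=
    hK.image_of_continuousOn ((chartAt (EE n) p).continuousOn.mono hKs)
  have hKt : (chartAt (EE n) p) '' K ⊆ (chartAt (EE n) p).target := by
    rintro _ ⟨q, hq, rfl⟩
    exact (chartAt (EE n) p).map_source (hKs hq)
  have hcont : ContinuousOn (fun y => ψ ((chartAt (EE n) p).symm y)
      * DD (n := n) F t Z ((chartAt (EE n) p).symm y) * sgm (loc (n := n) F p t) y)
      (chartAt (EE n) p).target := by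
    refine ContinuousOn.mul (ContinuousOn.mul ?_ ?_) ?_
    · exact hψ.comp_continuousOn (chartAt (EE n) p).continuousOn_symm
    · exact (EZ_cont hSM hI2 hI3 F hF p t ht Z hZ).congr fun y hy =>
        DD_chart hV6a hI3 F hF p t ht Z hZ y hy
    · exact fun y hy => (sgm_cont hSM hI2 hI3 F hF p t ht y hy).1.continuousWithinAt
  refine ((hcont.mono hKt).integrableOn_compact hK').of_forall_sdiff_eq_zero
    (chartAt (EE n) p).open_target.measurableSet ?_
  rintro y ⟨hy, hyK⟩
  have hq : (chartAt (EE n) p).symm y ∉ K := by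
    intro hq
    exact hyK ⟨_, hq, (chartAt (EE n) p).right_inv hy⟩
  rw [h0 _ hq, zero_mul]

omit [IsManifold (𝓡 n) ∞ M] in
/-- `DD` vanishes off the support -/
theorem DD_zero (F : M → ℝ → EE N) (t : ℝ) (Z : M → EE N) (q : M) (hq : q ∉ tsupport Z) :
    DD (n := n) F t Z q = 0 := by
  have hZ0 : Z q = 0 := image_eq_zero_of_notMem_tsupport hq
  have hev : (fun y => Z ((chartAt (EE n) q).symm y)) =ᶠ[𝓝 (chartAt (EE n) q q)]
      (fun _ => (0 : EE N)) := by
    have h1 : Z =ᶠ[𝓝 q] 0 := notMem_tsupport_iff_eventuallyEq.mp hq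
    have h2 : ContinuousAt (chartAt (EE n) q).symm (chartAt (EE n) q q) :=
      (chartAt (EE n) q).continuousAt_symm
        ((chartAt (EE n) q).map_source (mem_chart_source _ q))
    have h3 : (chartAt (EE n) q).symm (chartAt (EE n) q q) = q :=
      (chartAt (EE n) q).left_inv (mem_chart_source _ q)
    have h4 : Tendsto (chartAt (EE n) q).symm (𝓝 (chartAt (EE n) q q)) (𝓝 q) := by
      have := h2.tendsto
      rwa [h3] at this
    exact h4.eventually h1
  have hfd : fderiv ℝ (fun y => Z ((chartAt (EE n) q).symm y)) (chartAt (EE n) q q) = 0 := by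
    rw [hev.fderiv_eq]
    simp
  unfold DD dvg
  rw [hfd, hZ0]
  simp

/-- first variation in one chart -/
theorem onechart (hV3 : StV3) (hV6a : StV6a) (hI2 : StI2) (hI3 : StI3) [T2Space M]
    (F : M → ℝ → EE N)
    (hF : IsMCF (n := n) F) (p : M) (t : ℝ) (ht : t < 0) (Z : M → EE N)
    (hZ : ContMDiff (𝓡 n) 𝓘(ℝ, EE N) 1 Z) (hK : IsCompact (tsupport Z))
    (hKs : tsupport Z ⊆ (chartAt (EE n) p).source) :
    ∫ y in (chartAt (EE n) p).target, DD (n := n) F t Z ((chartAt (EE n) p).symm y)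
      * sgm (loc (n := n) F p t) y = 0 := by
  classical
  set e := chartAt (EE n) p with he
  have hop := e.open_target
  have hK' : IsCompact (e '' tsupport Z) := hK.image_of_continuousOn (e.continuousOn.mono hKs)
  have hKt : e '' tsupport Z ⊆ e.target := by
    rintro _ ⟨q, hq, rfl⟩
    exact e.map_source (hKs hq)
  set X' : EE n → EE N := e.target.indicator (fun y => Z (e.symm y)) with hX'
  have hX'0 : ∀ y ∉ e '' tsupport Z, X' y = 0 := by
    intro y hy
    by_cases hyt : y ∈ e.target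
    · rw [hX', indicator_of_mem hyt]
      refine image_eq_zero_of_notMem_tsupport fun hq => hy ⟨_, hq, e.right_inv hyt⟩
    · rw [hX', indicator_of_notMem hyt]
  have hev0 : ∀ y ∉ e.target, X' =ᶠ[𝓝 y] (fun _ => (0 : EE N)) := by
    intro y hy
    have : (e '' tsupport Z)ᶜ ∈ 𝓝 y :=
      hK'.isClosed.isOpen_compl.mem_nhds fun h => hy (hKt h)
    filter_upwards [this] with y' hy'
    exact hX'0 y' hy'
  have hev1 : ∀ y ∈ e.target, X' =ᶠ[𝓝 y] (fun y => Z (e.symm y)) := by
    intro y hy
    filter_upwards [hop.mem_nhds hy] with y' hy'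
    rw [hX', indicator_of_mem hy']
  have hC1 : ContDiff ℝ 1 X' := by
    rw [contDiff_iff_contDiffAt]
    intro y
    by_cases hyt : y ∈ e.target
    · exact ((ZC Z hZ p).contDiffAt (hop.mem_nhds hyt)).congr_of_eventuallyEq (hev1 y hyt)
    · exact contDiffAt_const.congr_of_eventuallyEq (hev0 y hyt)
  have hts : tsupport X' ⊆ e '' tsupport Z := by
    refine closure_minimal (fun y hy => ?_) hK'.isClosed
    by_contra h
    exact hy (hX'0 y h)
  have hcs : HasCompactSupport X' := HasCompactSupport.intro hK' hX'0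
  have h3 := hV3 n N (loc (n := n) F p t) e.target hop
    ((locC hI2 F hF p t ht).of_le ENat.LEInfty.out)
    (fun y hy => (chartL hI3 F hF p t ht y hy).1) X' hC1 hcs (hts.trans hKt)
  rw [← setIntegral_eq_integral_of_forall_compl_eq_zero (s := e.target)] at h3
  · rw [← h3]
    refine setIntegral_congr_fun hop.measurableSet fun y hy => ?_
    have h5 : DD (n := n) F t Z (e.symm y) = EZ (n := n) F t p Z y := DD_chart hV6a hI3 F hF p t ht Z hZ y hy
    show DD (n := n) F t Z (e.symm y) * sgm (loc (n := n) F p t) y = _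
    rw [h5]
    unfold EZ
    simp only [(hev1 y hy).fderiv_eq, (hev1 y hy).eq_of_nhds]
    rfl
  · intro y hy
    rw [(hev0 y hy).fderiv_eq, (hev0 y hy).eq_of_nhds]
    simp

/-- additivity of `DD` -/
theorem DD_sum (F : M → ℝ → EE N) (t : ℝ) (s : Finset ℕ) (Y : ℕ → M → EE N)
    (hY : ∀ j, ContMDiff (𝓡 n) 𝓘(ℝ, EE N) 1 (Y j)) (X : M → EE N)
    (hX : ∀ q, X q = ∑ j ∈ s, Y j q) (q : M) :
    DD (n := n) F t X q = ∑ j ∈ s, DD (n := n) F t (Y j) q := by
  have hd : ∀ j, DifferentiableAt ℝ (fun y => Y j ((chartAt (EE n) q).symm y))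
      (chartAt (EE n) q q) := by
    intro j
    have h1 := (ZC (Y j) (hY j) q).contDiffAt
      ((chartAt (EE n) q).open_target.mem_nhds
        ((chartAt (EE n) q).map_source (mem_chart_source _ q)))
    exact h1.differentiableAt (by norm_num)
  have hfd : fderiv ℝ (fun y => X ((chartAt (EE n) q).symm y)) (chartAt (EE n) q q)
      = ∑ j ∈ s, fderiv ℝ (fun y => Y j ((chartAt (EE n) q).symm y)) (chartAt (EE n) q q) := by
    have : (fun y => X ((chartAt (EE n) q).symm y))
        = fun y => ∑ j ∈ s, Y j ((chartAt (EE n) q).symm y) := by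
      funext y
      exact hX _
    rw [this]
    exact fderiv_fun_sum fun j _ => hd j
  unfold DD
  rw [Finset.sum_add_distrib, hX q, inner_sum]
  congr 1
  unfold dvg
  rw [hfd]
  simp only [sum_apply, sum_inner, Finset.mul_sum]
  calc ∑ a, ∑ b, ∑ j ∈ s, (gram (loc (n := n) F q t) (chartAt (EE n) q q))⁻¹ a b *
        inner ℝ (fderiv ℝ (fun y => Y j ((chartAt (EE n) q).symm y))
          (chartAt (EE n) q q) (ee a)) (dv1 (loc (n := n) F q t) (chartAt (EE n) q q) b)
      = ∑ a, ∑ j ∈ s, ∑ b, (gram (loc (n := n) F q t) (chartAt (EE n) q q))⁻¹ a b *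
        inner ℝ (fderiv ℝ (fun y => Y j ((chartAt (EE n) q).symm y))
          (chartAt (EE n) q q) (ee a)) (dv1 (loc (n := n) F q t) (chartAt (EE n) q q) b) :=
        Finset.sum_congr rfl fun a _ => Finset.sum_comm
    _ = _ := Finset.sum_comm

end V6

open V6

/-- V6. first variation formula on `M_t` -/
theorem hV6 (hSM : StSM) (hV3 : StV3) (hV4 : StV4) (hV6a : StV6a) (hI2 : StI2) (hI3 : StI3) :
    StV6 := by
  intro n N M _ _ _ _ F hF t ht c χ hPU X hX hXc s hs
  have hχc : ∀ i, Continuous (χ i) := fun i => (hPU.smooth i).continuous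
  have hχ1 : ∀ i, ContMDiff (𝓡 n) 𝓘(ℝ, ℝ) 1 (χ i) := fun i =>
    (hPU.smooth i).of_le (by exact_mod_cast le_top)
  have hχ0 : ∀ i, ∀ q ∉ tsupport (χ i), χ i q = 0 := fun i q hq =>
    image_eq_zero_of_notMem_tsupport hq
  set Y : ℕ → M → EE N := fun j q => χ j q • X q with hYdef
  have hY : ∀ j, ContMDiff (𝓡 n) 𝓘(ℝ, EE N) 1 (Y j) := fun j => (hχ1 j).smul hX
  have hYt : ∀ j, tsupport (Y j) ⊆ tsupport (χ j) := fun j => tsupport_smul_subset_left _ _
  have hYX : ∀ j, tsupport (Y j) ⊆ tsupport X := fun j => tsupport_smul_subset_right _ _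
  have hYc : ∀ j, IsCompact (tsupport (Y j)) := fun j =>
    (hPU.cpt j).of_isClosed_subset (isClosed_tsupport _) (hYt j)
  have hone : ∀ q ∈ tsupport X, ∑ j ∈ s, χ j q = 1 := by
    intro q hq
    exact (hasSum_sum_of_ne_finset_zero (fun i hi => hs i hi q hq)).unique (hPU.sum q)
  have hXY : ∀ q, X q = ∑ j ∈ s, Y j q := by
    intro q
    simp only [hYdef]
    rw [← Finset.sum_smul]
    by_cases hq : q ∈ tsupport X
    · rw [hone q hq, one_smul]
    · rw [image_eq_zero_of_notMem_tsupport hq, smul_zero]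
  -- integrability facts
  have hint1 : ∀ i, ∀ Z : M → EE N, ContMDiff (𝓡 n) 𝓘(ℝ, EE N) 1 Z →
      IntegrableOn (fun y => χ i ((chartAt (EE n) (c i)).symm y)
        * DD (n := n) F t Z ((chartAt (EE n) (c i)).symm y) * sgm (loc (n := n) F (c i) t) y)
        (chartAt (EE n) (c i)).target := by
    intro i Z hZ
    refine integ hSM hV6a hI2 hI3 F hF (c i) t ht Z hZ (χ i) (hχc i) (tsupport (χ i))
      (hPU.cpt i) (hPU.sub i) fun q hq => ?_
    rw [hχ0 i q hq, zero_mul]
  have hint2 : ∀ i j, IntegrableOn (fun y => χ i ((chartAt (EE n) (c j)).symm y)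
        * DD (n := n) F t (Y j) ((chartAt (EE n) (c j)).symm y)
        * sgm (loc (n := n) F (c j) t) y)
        (chartAt (EE n) (c j)).target := by
    intro i j
    refine integ hSM hV6a hI2 hI3 F hF (c j) t ht (Y j) (hY j) (χ i) (hχc i) (tsupport (χ j))
      (hPU.cpt j) (hPU.sub j) fun q hq => ?_
    rw [DD_zero F t (Y j) q (fun h => hq (hYt j h)), mul_zero]
  refine ⟨fun i => hint1 i X hX, ?_⟩
  show ∑ i ∈ s, ∫ y in (chartAt (EE n) (c i)).target, χ i ((chartAt (EE n) (c i)).symm y)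
    * DD (n := n) F t X ((chartAt (EE n) (c i)).symm y) * sgm (loc (n := n) F (c i) t) y = 0
  have hstep1 : ∀ i, ∫ y in (chartAt (EE n) (c i)).target,
      χ i ((chartAt (EE n) (c i)).symm y)
      * DD (n := n) F t X ((chartAt (EE n) (c i)).symm y) * sgm (loc (n := n) F (c i) t) y
      = ∑ j ∈ s, ∫ y in (chartAt (EE n) (c i)).target, χ i ((chartAt (EE n) (c i)).symm y)
      * DD (n := n) F t (Y j) ((chartAt (EE n) (c i)).symm y)
      * sgm (loc (n := n) F (c i) t) y := by
    intro i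
    rw [← integral_finsetSum _ (fun j _ => hint1 i (Y j) (hY j))]
    refine integral_congr_ae (Eventually.of_forall fun y => ?_)
    simp only
    rw [DD_sum F t s Y hY X hXY, Finset.mul_sum, Finset.sum_mul]
  have hstep2 : ∀ i j, ∫ y in (chartAt (EE n) (c i)).target,
      χ i ((chartAt (EE n) (c i)).symm y)
      * DD (n := n) F t (Y j) ((chartAt (EE n) (c i)).symm y)
      * sgm (loc (n := n) F (c i) t) y
      = ∫ y in (chartAt (EE n) (c j)).target, χ i ((chartAt (EE n) (c j)).symm y)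
      * DD (n := n) F t (Y j) ((chartAt (EE n) (c j)).symm y)
      * sgm (loc (n := n) F (c j) t) y := by
    intro i j
    refine (hV4 n N M F hF t ht (c i) (c j)).2
      (fun q => χ i q * DD (n := n) F t (Y j) q) fun q hq => ?_
    have h1 : χ i q ≠ 0 := left_ne_zero_of_mul hq
    have h2 : DD (n := n) F t (Y j) q ≠ 0 := right_ne_zero_of_mul hq
    refine ⟨hPU.sub i ?_, hPU.sub j ?_⟩
    · by_contra h
      exact h1 (hχ0 i q h)
    · by_contra h
      exact h2 (DD_zero F t (Y j) q (fun h' => h (hYt j h')))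
  calc _ = ∑ i ∈ s, ∑ j ∈ s, ∫ y in (chartAt (EE n) (c j)).target,
      χ i ((chartAt (EE n) (c j)).symm y)
      * DD (n := n) F t (Y j) ((chartAt (EE n) (c j)).symm y)
      * sgm (loc (n := n) F (c j) t) y := by
        refine Finset.sum_congr rfl fun i _ => ?_
        rw [hstep1 i]
        exact Finset.sum_congr rfl fun j _ => hstep2 i j
    _ = ∑ j ∈ s, ∑ i ∈ s, ∫ y in (chartAt (EE n) (c j)).target,
      χ i ((chartAt (EE n) (c j)).symm y)
      * DD (n := n) F t (Y j) ((chartAt (EE n) (c j)).symm y)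
      * sgm (loc (n := n) F (c j) t) y := Finset.sum_comm
    _ = ∑ j ∈ s, (0 : ℝ) := by
        refine Finset.sum_congr rfl fun j _ => ?_
        rw [← integral_finsetSum _ (fun i _ => hint2 i j),
          ← onechart hV3 hV6a hI2 hI3 F hF (c j) t ht (Y j) (hY j) (hYc j)
            ((hYt j).trans (hPU.sub j))]
        refine integral_congr_ae (Eventually.of_forall fun y => ?_)
        simp only
        rw [← Finset.sum_mul, ← Finset.sum_mul]
        by_cases hq : (chartAt (EE n) (c j)).symm y ∈ tsupport X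
        · rw [hone _ hq, one_mul]
        · rw [DD_zero F t (Y j) _ (fun h => hq (hYX j h)), mul_zero]
    _ = 0 := Finset.sum_const_zero

end Helper67.PI
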